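import Mathlib
import Pool.Agent.H11.EL.Targets2

/-! Module CC of the uniform ellipticity board (MP_0b603e_al). -/

set_option autoImplicit false

namespace Pool.Agent.H51.EL

open Pool.Agent.H11.EL

theorem pf_cc : T_CC := by
  intro ρ k
  induction k with
  | zero =>
    intro G H _ _ e h
    obtain ⟨e⟩ := e
    rcases h with h | ⟨h1, h2⟩
    · left
      exact (Group.isNilpotent_congr e).1 h
    · right
      refine ⟨Finite.of_equiv G e.toEquiv, ?_⟩
      rw [← Nat.card_congr e.toEquiv]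
      exact h2
  | succ k ih =>
    intro G H _ _ e h
    obtain ⟨e⟩ := e
    rcases h with h | ⟨N, hN, h1, h2⟩ | ⟨A, B, hAB, hA, hB⟩
    · left
      exact ih G H ⟨e⟩ h
    · right; left
      have hN' : (N.map e.toMonoidHom).Normal := hN.map _ e.surjective
      refine ⟨N.map e.toMonoidHom, hN', ?_, ?_⟩
      · exact ih N _ ⟨e.subgroupMap N⟩ h1
      · exact ih (G ⧸ N) (H ⧸ N.map e.toMonoidHom)
          ⟨QuotientGroup.congr N (N.map e.toMonoidHom) e rfl⟩ h2
    · right; right
      refine ⟨A.map e.toMonoidHom, B.map e.toMonoidHom, ?_, ?_, ?_⟩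
      · intro h
        obtain ⟨a, ha, b, hb, hab⟩ := hAB (e.symm h)
        refine ⟨e a, ⟨a, ha, rfl⟩, e b, ⟨b, hb, rfl⟩, ?_⟩
        rw [← map_mul, ← hab, MulEquiv.apply_symm_apply]
      · exact ih A _ ⟨e.subgroupMap A⟩ hA
      · exact ih B _ ⟨e.subgroupMap B⟩ hB

end Pool.Agent.H51.EL
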